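import Pool.Agent.Helper64.SC.Hex

/-!
Counting configurations: the probability of a crossing is at most `1/2`, clusters, and the comparison of
all spanning clusters with the unique spanning cluster.
-/

set_option autoImplicit false

open Finset

open scoped Classical

namespace Pool.Agent.Helper64.SC

theorem H.mono {R : ℕ} {S T : Finset V} (h : H R S) (hST : S ⊆ T) : H R T := by
  obtain ⟨l, h1, h2, h3, h4⟩ := h
  exact ⟨l, h1, fun v hv => hST (h2 v hv), h3, h4⟩

theorem adj_swap {u v : V} (h : Adj u v) : Adj u.swap v.swap := by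
  unfold Adj at *
  simp only [Prod.fst_swap, Prod.snd_swap]
  omega

theorem box_swap {R : ℕ} {v : V} (h : v ∈ box R) : v.swap ∈ box R := by
  simp only [box, mem_product, Prod.fst_swap, Prod.snd_swap] at *
  exact ⟨h.2, h.1⟩

/-- The reflected complement. -/
noncomputable def cs (R : ℕ) (ω : Finset V) : Finset V := (box R \ ω).image Prod.swap

theorem not_both (R : ℕ) (ω : Finset V) (hω : ω ⊆ box R) (h : H R ω) : ¬ H R (cs R ω) := by
  rintro ⟨l', c1, c2, ⟨p', hp', hp0'⟩, ⟨q', hq', hq0'⟩⟩
  obtain ⟨l, b1, b2, ⟨p, hp, hp0⟩, ⟨q, hq, hq0⟩⟩ := h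
  cases l with
  | nil => simp at hp
  | cons a l =>
  cases l' with
  | nil => simp at hp'
  | cons a' l' =>
  simp only [List.head?_cons, Option.mem_def, Option.some.injEq] at hp hp'
  subst hp hp'
  have e1 : q = l.getLastD a := by
    rw [List.getLast?_cons] at hq
    simpa using hq.symm
  have e2 : q' = l'.getLastD a' := by
    rw [List.getLast?_cons] at hq'
    simpa using hq'.symm
  have hm' : ∀ x ∈ (a' :: l').map Prod.swap, x ∈ box R \ ω := by
    intro x hx
    obtain ⟨y, hy, rfl⟩ := List.mem_map.1 hx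
    obtain ⟨z, hz, hzy⟩ := mem_image.1 (c2 y hy)
    rw [← hzy, Prod.swap_swap]
    exact hz
  have hc' : ((a' :: l').map Prod.swap).IsChain Adj := by
    rw [List.isChain_map]
    exact c1.imp (fun u v h => adj_swap h)
  have hlast : ((l'.map Prod.swap).getLastD a'.swap) = (l'.getLastD a').swap := by
    have : ∀ (l : List V) (a : V), (l.map Prod.swap).getLastD a.swap = (l.getLastD a).swap := by
      intro l
      induction l with
      | nil => intro a; rfl
      | cons b l ih =>
        intro a
        rw [List.map_cons, List.getLastD_cons, List.getLastD_cons, ih]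
    exact this l' a'
  obtain ⟨x, hx1, hx2⟩ := meet R a l b1 hp0 (by rw [← e1]; exact hq0)
    (fun x hx => hω (b2 x hx)) a'.swap (l'.map Prod.swap) (by simpa using hc')
    (by simpa using hp0') (by rw [hlast, ← e2]; simpa using hq0')
    (fun x hx => (mem_sdiff.1 (hm' x (by simpa using hx))).1)
  exact (mem_sdiff.1 (hm' x (by simpa using hx2))).2 (b2 x hx1)

theorem cs_inj (R : ℕ) : Set.InjOn (cs R) {ω | ω ⊆ box R} := by
  intro ω hω ω' hω' h
  have h1 : box R \ ω = box R \ ω' := image_injective Prod.swap_injective h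
  have h2 : box R \ (box R \ ω) = box R \ (box R \ ω') := by rw [h1]
  rwa [sdiff_sdiff_eq_self hω, sdiff_sdiff_eq_self hω'] at h2

theorem cs_box (R : ℕ) (ω : Finset V) : cs R ω ⊆ box R := by
  intro x hx
  obtain ⟨y, hy, rfl⟩ := mem_image.1 hx
  exact box_swap (mem_sdiff.1 hy).1

/-- The probability of a crossing is at most `1/2`. -/
theorem card_H (R : ℕ) :
    2 * ((box R).powerset.filter (fun ω => H R ω)).card ≤ 2 ^ (box R).card := by
  have h1 : ((box R).powerset.filter (fun ω => H R ω)).card ≤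
      ((box R).powerset.filter (fun ω => ¬ H R ω)).card := by
    refine card_le_card_of_injOn (cs R) ?_ ?_
    · intro ω hω
      simp only [coe_filter, mem_powerset, Set.mem_ofPred_eq] at hω ⊢
      exact ⟨cs_box R ω, not_both R ω hω.1 hω.2⟩
    · intro ω hω ω' hω' h
      simp only [coe_filter, mem_powerset, Set.mem_ofPred_eq] at hω hω'
      exact cs_inj R hω.1 hω'.1 h
  have h2 := card_filter_add_card_filter_not (s := (box R).powerset) (fun ω => H R ω)
  rw [card_powerset] at h2
  omega

/-- The same for the subsets of a part of the box. -/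
theorem card_H_sub (R : ℕ) (S : Finset V) (hS : S ⊆ box R) :
    2 * (S.powerset.filter (fun ω => H R ω)).card ≤ 2 ^ S.card := by
  have h1 : (S.powerset.filter (fun ω => H R ω)).card * 2 ^ (box R \ S).card ≤
      ((box R).powerset.filter (fun ω => H R ω)).card := by
    rw [← card_powerset (box R \ S), ← card_product]
    refine card_le_card_of_injOn (fun x => x.1 ∪ x.2) ?_ ?_
    · rintro ⟨ω, τ⟩ h
      simp only [coe_product, coe_filter, mem_powerset, Set.mem_prod, Set.mem_ofPred_eq,
        coe_powerset, Set.mem_preimage, Set.mem_powerset_iff, coe_subset] at h ⊢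
      refine ⟨union_subset (h.1.1.trans hS) (h.2.trans sdiff_subset), ?_⟩
      exact h.1.2.mono subset_union_left
    · rintro ⟨ω, τ⟩ h ⟨ω', τ'⟩ h' heq
      simp only [coe_product, coe_filter, mem_powerset, Set.mem_prod, Set.mem_ofPred_eq,
        coe_powerset, Set.mem_preimage, Set.mem_powerset_iff, coe_subset] at h h' heq
      have a1 : ∀ A B : Finset V, A ⊆ S → B ⊆ box R \ S → (A ∪ B) ∩ S = A := by
        intro A B hA hB
        ext x
        simp only [mem_inter, mem_union]
        constructor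
        · rintro ⟨h1 | h1, h2⟩
          · exact h1
          · exact absurd h2 (mem_sdiff.1 (hB h1)).2
        · intro h1
          exact ⟨Or.inl h1, hA h1⟩
      have a2 : ∀ A B : Finset V, A ⊆ S → B ⊆ box R \ S → (A ∪ B) \ S = B := by
        intro A B hA hB
        ext x
        simp only [mem_sdiff, mem_union]
        constructor
        · rintro ⟨h1 | h1, h2⟩
          · exact absurd (hA h1) h2
          · exact h1
        · intro h1
          exact ⟨Or.inr h1, (mem_sdiff.1 (hB h1)).2⟩
      have b1 := a1 ω τ h.1.1 h.2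
      have b2 := a1 ω' τ' h'.1.1 h'.2
      have c1 := a2 ω τ h.1.1 h.2
      have c2 := a2 ω' τ' h'.1.1 h'.2
      rw [heq] at b1 c1
      rw [← b1, ← c1, b2, c2]
  have h2 := card_H R
  have h3 : (box R).card = S.card + (box R \ S).card := by
    rw [card_sdiff_of_subset hS]
    have := card_le_card hS
    omega
  rw [h3, pow_add] at h2
  have h4 : 0 < 2 ^ (box R \ S).card := by positivity
  have h5 : 2 * (S.powerset.filter (fun ω => H R ω)).card * 2 ^ (box R \ S).card ≤
      2 ^ S.card * 2 ^ (box R \ S).card := by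
    refine le_trans ?_ h2
    rw [mul_assoc]
    exact Nat.mul_le_mul_left 2 h1
  exact Nat.le_of_mul_le_mul_right h5 h4

/-! ### Clusters -/

/-- Step inside `C`. -/
def st (C : Finset V) (a b : V) : Prop := b ∈ C ∧ Adj a b

theorem st_mem {C : Finset V} {u v : V} (h : Relation.ReflTransGen (st C) u v) (hu : u ∈ C) :
    v ∈ C := by
  induction h with
  | refl => exact hu
  | tail _ h _ => exact h.1

theorem st_symm {C : Finset V} {u v : V} (h : Relation.ReflTransGen (st C) u v) (hu : u ∈ C) :
    Relation.ReflTransGen (st C) v u := by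
  induction h with
  | refl => exact Relation.ReflTransGen.refl
  | tail h1 h2 ih => exact Relation.ReflTransGen.head ⟨st_mem h1 hu, h2.2.symm⟩ ih

theorem st_closed {S C : Finset V} (hC : ∀ u ∈ C, ∀ v ∈ S, Adj u v → v ∈ C) {u v : V}
    (h : Relation.ReflTransGen (st S) u v) (hu : u ∈ C) : v ∈ C := by
  induction h with
  | refl => exact hu
  | tail _ h ih => exact hC _ ih _ h.1 h.2

theorem st_mono {S C : Finset V} (hCS : C ⊆ S) {u v : V} (h : Relation.ReflTransGen (st C) u v) :
    Relation.ReflTransGen (st S) u v := by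
  induction h with
  | refl => exact Relation.ReflTransGen.refl
  | tail _ h ih => exact ih.tail ⟨hCS h.1, h.2⟩

theorem cluster_eq {S C D : Finset V} (hC : IsCluster S C) (hD : IsCluster S D) {x : V}
    (hx : x ∈ C) (hx' : x ∈ D) : C = D := by
  obtain ⟨-, c1, c2, c3⟩ := hC
  obtain ⟨-, d1, d2, d3⟩ := hD
  refine Subset.antisymm ?_ ?_
  · intro y hy
    exact st_closed d2 (st_mono c1 (c3 x hx y hy)) hx'
  · intro y hy
    exact st_closed c2 (st_mono d1 (d3 x hx' y hy)) hx

/-- The cluster of `v`. -/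
noncomputable def comp (S : Finset V) (v : V) : Finset V :=
  S.filter (fun u => Relation.ReflTransGen (st S) v u)

theorem comp_cluster (S : Finset V) (v : V) (hv : v ∈ S) : IsCluster S (comp S v) := by
  have hmem : ∀ u, u ∈ comp S v ↔ u ∈ S ∧ Relation.ReflTransGen (st S) v u := by
    intro u
    unfold comp
    rw [mem_filter]
  have hvc : v ∈ comp S v := (hmem v).2 ⟨hv, Relation.ReflTransGen.refl⟩
  have hin : ∀ u, Relation.ReflTransGen (st S) v u → Relation.ReflTransGen (st (comp S v)) v u := by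
    intro u hu
    induction hu with
    | refl => exact Relation.ReflTransGen.refl
    | tail h1 h2 ih => exact ih.tail ⟨(hmem _).2 ⟨h2.1, h1.tail h2⟩, h2.2⟩
  refine ⟨⟨v, hvc⟩, fun u hu => ((hmem u).1 hu).1, ?_, ?_⟩
  · intro u hu w hw huw
    exact (hmem w).2 ⟨hw, ((hmem u).1 hu).2.tail ⟨hw, huw⟩⟩
  · intro u hu w hw
    exact (st_symm (hin u ((hmem u).1 hu).2) hvc).trans (hin w ((hmem w).1 hw).2)

theorem chain_comp (S : Finset V) (v : V) (hv : v ∈ S) :
    ∀ (l : List V) (u : V), (u :: l).IsChain Adj → (∀ x ∈ u :: l, x ∈ S) → u ∈ comp S v →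
      ∀ x ∈ u :: l, x ∈ comp S v := by
  have hC := comp_cluster S v hv
  intro l
  induction l with
  | nil =>
    intro u _ _ hu x hx
    rw [List.mem_singleton] at hx
    rwa [hx]
  | cons w l ih =>
    intro u hc hm hu x hx
    obtain ⟨h1, h2⟩ := List.isChain_cons_cons.1 hc
    rcases List.mem_cons.1 hx with rfl | hx
    · exact hu
    · exact ih w h2 (fun y hy => hm y (List.mem_cons_of_mem _ hy))
        (hC.2.2.1 u hu w (hm w (by simp)) h1) x hx

/-- Every crossing is contained in a spanning cluster. -/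
theorem crossing_span (R : ℕ) (S : Finset V) (l : List V) (h : IsCrossing R S l) :
    ∃ C ∈ Span R S, IsCrossing R C l := by
  obtain ⟨h1, h2, ⟨p, hp, hp0⟩, h4⟩ := h
  cases l with
  | nil => simp at hp
  | cons a l =>
    have ha : a ∈ S := h2 a (by simp)
    have hac : a ∈ comp S a := by
      unfold comp
      rw [mem_filter]
      exact ⟨ha, Relation.ReflTransGen.refl⟩
    have hcr : IsCrossing R (comp S a) (a :: l) :=
      ⟨h1, chain_comp S a ha l a h1 h2 hac, ⟨p, hp, hp0⟩, h4⟩
    refine ⟨comp S a, ?_, hcr⟩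
    unfold Span
    rw [mem_filter, mem_powerset]
    exact ⟨(comp_cluster S a ha).2.1, comp_cluster S a ha, _, hcr⟩

theorem mem_Span {R : ℕ} {S C : Finset V} : C ∈ Span R S ↔ IsCluster S C ∧ H R C := by
  unfold Span
  rw [mem_filter, mem_powerset]
  exact ⟨fun h => h.2, fun h => ⟨h.1.2.1, h⟩⟩

theorem Span_nonempty {R : ℕ} {S : Finset V} : (Span R S).Nonempty ↔ H R S := by
  constructor
  · rintro ⟨C, hC⟩
    exact (mem_Span.1 hC).2.mono (mem_Span.1 hC).1.2.1
  · rintro ⟨l, hl⟩
    obtain ⟨C, hC, -⟩ := crossing_span R S l hl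
    exact ⟨C, hC⟩

theorem One.H {R : ℕ} {S : Finset V} (h : One R S) : H R S := by
  unfold One at h
  rw [← Span_nonempty, ← card_pos, h]
  exact one_pos

/-! ### The comparison for a fixed cluster -/

/-- The sites of the box which are neither in `C` nor adjacent to `C`. -/
noncomputable def away (R : ℕ) (C : Finset V) : Finset V :=
  (box R).filter (fun v => v ∉ C ∧ ∀ u ∈ C, ¬ Adj u v)

theorem mem_away {R : ℕ} {C : Finset V} {v : V} :
    v ∈ away R C ↔ v ∈ box R ∧ v ∉ C ∧ ∀ u ∈ C, ¬ Adj u v := by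
  unfold away
  rw [mem_filter]

theorem card_cluster (R : ℕ) (C : Finset V) (hC : C ⊆ box R) :
    ((box R).powerset.filter (fun ω => C ∈ Span R ω)).card ≤
      2 * ((box R).powerset.filter (fun ω => C ∈ Span R ω ∧ One R ω)).card := by
  by_cases hE : ((box R).powerset.filter (fun ω => C ∈ Span R ω)) = ∅
  · rw [hE]
    simp
  obtain ⟨ω0, h0⟩ := nonempty_iff_ne_empty.2 hE
  rw [mem_filter, mem_powerset] at h0
  obtain ⟨hω0, hC0⟩ := h0
  have hS0 := mem_Span.1 hC0
  obtain ⟨⟨hne, hsub, hcl, hcon⟩, hH⟩ := hS0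
  -- the configurations with the cluster `C`
  have key : ∀ ω, ω ⊆ box R → C ∈ Span R ω → ω \ C ⊆ away R C ∧ C ∪ (ω \ C) = ω := by
    intro ω hω hCω
    obtain ⟨⟨-, k1, k2, -⟩, -⟩ := mem_Span.1 hCω
    refine ⟨?_, union_sdiff_of_subset k1⟩
    intro v hv
    rw [mem_sdiff] at hv
    rw [mem_away]
    exact ⟨hω hv.1, hv.2, fun u hu huv => hv.2 (k2 u hu v hv.1 huv)⟩
  have key2 : ∀ τ, τ ⊆ away R C → C ∪ τ ⊆ box R ∧ C ∈ Span R (C ∪ τ) := by
    intro τ hτ
    refine ⟨union_subset hC (fun v hv => (mem_away.1 (hτ hv)).1), ?_⟩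
    rw [mem_Span]
    refine ⟨⟨hne, subset_union_left, ?_, hcon⟩, hH⟩
    intro u hu v hv huv
    rcases mem_union.1 hv with h | h
    · exact h
    · exact absurd huv ((mem_away.1 (hτ h)).2.2 u hu)
  have key3 : ∀ τ, τ ⊆ away R C → ¬ H R τ → One R (C ∪ τ) := by
    intro τ hτ hnH
    unfold One
    rw [card_eq_one]
    refine ⟨C, ?_⟩
    ext D
    rw [mem_singleton]
    constructor
    · intro hD
      by_contra hne'
      have hD' := mem_Span.1 hD
      apply hnH
      refine hD'.2.mono ?_
      intro x hx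
      have hx' := hD'.1.2.1 hx
      rcases mem_union.1 hx' with h | h
      · exact absurd (cluster_eq hD'.1 (mem_Span.1 (key2 τ hτ).2).1 hx h) hne'
      · exact h
    · rintro rfl
      exact (key2 τ hτ).2
  have hdisj : ∀ τ, τ ⊆ away R C → (C ∪ τ) \ C = τ := by
    intro τ hτ
    ext x
    simp only [mem_sdiff, mem_union]
    constructor
    · rintro ⟨h1 | h1, h2⟩
      · exact absurd h1 h2
      · exact h1
    · intro h1
      exact ⟨Or.inr h1, (mem_away.1 (hτ h1)).2.1⟩
  have c1 : ((box R).powerset.filter (fun ω => C ∈ Span R ω)).card ≤ 2 ^ (away R C).card := by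
    rw [← card_powerset]
    refine card_le_card_of_injOn (fun ω => ω \ C) ?_ ?_
    · intro ω hω
      simp only [coe_filter, mem_powerset, Set.mem_ofPred_eq] at hω
      simp only [coe_powerset, Set.mem_preimage, Set.mem_powerset_iff, coe_subset]
      exact (key ω hω.1 hω.2).1
    · intro ω hω ω' hω' h
      simp only [coe_filter, mem_powerset, Set.mem_ofPred_eq] at hω hω' h
      rw [← (key ω hω.1 hω.2).2, ← (key ω' hω'.1 hω'.2).2, h]
  have c2 : ((away R C).powerset.filter (fun τ => ¬ H R τ)).card ≤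
      ((box R).powerset.filter (fun ω => C ∈ Span R ω ∧ One R ω)).card := by
    refine card_le_card_of_injOn (fun τ => C ∪ τ) ?_ ?_
    · intro τ hτ
      simp only [coe_filter, mem_powerset, Set.mem_ofPred_eq] at hτ ⊢
      exact ⟨(key2 τ hτ.1).1, (key2 τ hτ.1).2, key3 τ hτ.1 hτ.2⟩
    · intro τ hτ τ' hτ' h
      simp only [coe_filter, mem_powerset, Set.mem_ofPred_eq] at hτ hτ' h
      rw [← hdisj τ hτ.1, ← hdisj τ' hτ'.1, h]
  have c3 := card_H_sub R (away R C) (fun v hv => (mem_away.1 hv).1)
  have c4 := card_filter_add_card_filter_not (s := (away R C).powerset) (fun τ => H R τ)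
  rw [card_powerset] at c4
  omega

theorem main_sum (R : ℕ) (F : Finset V → ℝ) (hF : ∀ C, 0 ≤ F C) :
    ∑ ω ∈ (box R).powerset, ∑ C ∈ Span R ω, F C ≤
      2 * ∑ ω ∈ (box R).powerset, if One R ω then ∑ C ∈ Span R ω, F C else 0 := by
  have hsub : ∀ ω ∈ (box R).powerset, ∀ C, C ∈ Span R ω → C ∈ (box R).powerset := by
    intro ω hω C hC
    rw [mem_powerset] at *
    exact (mem_Span.1 hC).1.2.1.trans hω
  have e1 : ∑ ω ∈ (box R).powerset, ∑ C ∈ Span R ω, F C =
      ∑ C ∈ (box R).powerset, ((box R).powerset.filter (fun ω => C ∈ Span R ω)).card * F C := by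
    have : ∀ ω ∈ (box R).powerset, ∑ C ∈ Span R ω, F C =
        ∑ C ∈ (box R).powerset, if C ∈ Span R ω then F C else 0 := by
      intro ω hω
      rw [← sum_filter]
      refine sum_congr ?_ fun _ _ => rfl
      ext C
      rw [mem_filter]
      exact ⟨fun h => ⟨hsub ω hω C h, h⟩, fun h => h.2⟩
    rw [sum_congr rfl this, sum_comm]
    refine sum_congr rfl fun C _ => ?_
    rw [← sum_filter, sum_const, nsmul_eq_mul]
  have e2 : ∑ ω ∈ (box R).powerset, (if One R ω then ∑ C ∈ Span R ω, F C else 0) =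
      ∑ C ∈ (box R).powerset,
        ((box R).powerset.filter (fun ω => C ∈ Span R ω ∧ One R ω)).card * F C := by
    have : ∀ ω ∈ (box R).powerset, (if One R ω then ∑ C ∈ Span R ω, F C else 0) =
        ∑ C ∈ (box R).powerset, if C ∈ Span R ω ∧ One R ω then F C else 0 := by
      intro ω hω
      split_ifs with h
      · rw [← sum_filter]
        refine sum_congr ?_ fun _ _ => rfl
        ext C
        rw [mem_filter]
        exact ⟨fun h' => ⟨hsub ω hω C h', h', h⟩, fun h' => h'.2.1⟩
      · symm
        refine sum_eq_zero fun C _ => ?_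
        rw [if_neg (fun h' => h h'.2)]
    rw [sum_congr rfl this, sum_comm]
    refine sum_congr rfl fun C _ => ?_
    rw [← sum_filter, sum_const, nsmul_eq_mul]
  rw [e1, e2, mul_sum]
  refine sum_le_sum fun C hC => ?_
  have h1 := card_cluster R C (mem_powerset.1 hC)
  have h2 : (((box R).powerset.filter (fun ω => C ∈ Span R ω)).card : ℝ) ≤
      2 * ((box R).powerset.filter (fun ω => C ∈ Span R ω ∧ One R ω)).card := by
    exact_mod_cast h1
  nlinarith [hF C]

end Pool.Agent.Helper64.SC
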