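import Mathlib

/-!
# Shortest crossings of critical percolation: the spanning clusters

Site percolation with parameter `1/2` on the triangular lattice, sites `ℤ × ℤ`, neighbours of `v`:
`v ± (1,0)`, `v ± (0,1)`, `v ± (1,-1)` (the embedding of the triangular lattice in which the sites are
the integer points).  `box R` is `{0, …, R}²`, the sites in the square `[0,R]²`.
A configuration is the finite set `ω ⊆ box R` of its open sites, all configurations have the same
probability.
-/

set_option autoImplicit false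

open Finset

namespace Pool.Agent.Helper64.SC

abbrev V := ℤ × ℤ

/-- Adjacency of the triangular lattice. -/
def Adj (u v : V) : Prop :=
  (v.1 = u.1 + 1 ∧ v.2 = u.2) ∨ (v.1 = u.1 - 1 ∧ v.2 = u.2) ∨
  (v.1 = u.1 ∧ v.2 = u.2 + 1) ∨ (v.1 = u.1 ∧ v.2 = u.2 - 1) ∨
  (v.1 = u.1 + 1 ∧ v.2 = u.2 - 1) ∨ (v.1 = u.1 - 1 ∧ v.2 = u.2 + 1)

/-- The sites in the square `[0,R]²`. -/
noncomputable def box (R : ℕ) : Finset V := Finset.Icc (0 : ℤ) (R : ℤ) ×ˢ Finset.Icc (0 : ℤ) (R : ℤ)

/-- `l` is a path in `S` from the left side to the right side. -/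
def IsCrossing (R : ℕ) (S : Finset V) (l : List V) : Prop :=
  l.IsChain Adj ∧ (∀ v ∈ l, v ∈ S) ∧ (∃ p ∈ l.head?, p.1 = 0) ∧ (∃ q ∈ l.getLast?, q.1 = (R : ℤ))

/-- There is a left-right crossing in `S`. -/
def H (R : ℕ) (S : Finset V) : Prop := ∃ l, IsCrossing R S l

/-- The length (number of sites) of the shortest crossing in `S` (`0` if there is none). -/
noncomputable def L (R : ℕ) (S : Finset V) : ℕ :=
  sInf {n | ∃ l, IsCrossing R S l ∧ l.length = n}

/-- `C` is a cluster (connected component) of `S`. -/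
def IsCluster (S C : Finset V) : Prop :=
  C.Nonempty ∧ C ⊆ S ∧ (∀ u ∈ C, ∀ v ∈ S, Adj u v → v ∈ C) ∧
    ∀ u ∈ C, ∀ v ∈ C, Relation.ReflTransGen (fun a b => b ∈ C ∧ Adj a b) u v

open Classical in
/-- The spanning clusters of `S`. -/
noncomputable def Span (R : ℕ) (S : Finset V) : Finset (Finset V) :=
  S.powerset.filter (fun C => IsCluster S C ∧ H R C)

/-- The expectation of `f ω`, `ω` uniform in the subsets of `box R`. -/
noncomputable def Ex (R : ℕ) (f : Finset V → ℝ) : ℝ :=
  (∑ ω ∈ (box R).powerset, f ω) / 2 ^ (box R).card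

open Classical in
/-- Probability. -/
noncomputable def Pr (R : ℕ) (A : Finset V → Prop) : ℝ := Ex R (fun ω => if A ω then 1 else 0)

open Classical in
/-- Conditional expectation of `f` given `A`. -/
noncomputable def CEx (R : ℕ) (f : Finset V → ℝ) (A : Finset V → Prop) : ℝ :=
  Ex R (fun ω => if A ω then f ω else 0) / Pr R A

/-- Exactly one spanning cluster. -/
def One (R : ℕ) (ω : Finset V) : Prop := (Span R ω).card = 1

end Pool.Agent.Helper64.SC
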