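import Pool.Agent.Helper64.SC.Defs

/-!
A left-right path and a top-bottom path in the box meet.
-/

set_option autoImplicit false

open Finset

namespace Pool.Agent.Helper64.SC

theorem Adj.symm {u v : V} (h : Adj u v) : Adj v u := by
  unfold Adj at *
  omega

/-- Sum of `f` over the edges of the path `p :: l`. -/
def sE (f : V → V → ZMod 2) : V → List V → ZMod 2
  | _, [] => 0
  | p, q :: l => f p q + sE f q l

theorem z2 (a : ZMod 2) : a + a = 0 := by
  revert a
  decide

theorem tel (f : V → V → ZMod 2) (φ : V → ZMod 2) (good : V → Prop)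
    (hf : ∀ p q, Adj p q → good p → good q → f p q = φ p + φ q) :
    ∀ (l : List V) (p : V), (p :: l).IsChain Adj → (∀ x ∈ p :: l, good x) →
      sE f p l = φ p + φ (l.getLastD p) := by
  intro l
  induction l with
  | nil =>
    intro p _ _
    simp [sE, z2]
  | cons q l ih =>
    intro p hc hg
    obtain ⟨h1, h2⟩ := List.isChain_cons_cons.1 hc
    have h3 := ih q h2 (fun x hx => hg x (List.mem_cons_of_mem _ hx))
    have h4 := hf p q h1 (hg p (by simp)) (hg q (by simp))
    have h5 : (q :: l).getLastD p = l.getLastD q := List.getLastD_cons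
    rw [sE, h3, h4, h5]
    have := z2 (φ q)
    linear_combination this

theorem sE_congr (f f' : V → V → ZMod 2) (good : V → Prop)
    (hf : ∀ p q, Adj p q → good p → good q → f p q = f' p q) :
    ∀ (l : List V) (p : V), (p :: l).IsChain Adj → (∀ x ∈ p :: l, good x) →
      sE f p l = sE f' p l := by
  intro l
  induction l with
  | nil =>
    intro p _ _
    rfl
  | cons q l ih =>
    intro p hc hg
    obtain ⟨h1, h2⟩ := List.isChain_cons_cons.1 hc
    rw [sE, sE, ih q h2 (fun x hx => hg x (List.mem_cons_of_mem _ hx)),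
      hf p q h1 (hg p (by simp)) (hg q (by simp))]

theorem sE_add (f f' : V → V → ZMod 2) :
    ∀ (l : List V) (p : V), sE (fun a b => f a b + f' a b) p l = sE f p l + sE f' p l := by
  intro l
  induction l with
  | nil =>
    intro p
    simp [sE]
  | cons q l ih =>
    intro p
    rw [sE, sE, sE, ih q]
    ring

/-- The edge `{p,q}` crosses the vertical ray below `v` between the columns `v.1` and `v.1 + 1`. -/
def cr (v p q : V) : ZMod 2 :=
  if ((p.1 = v.1 ∧ q.1 = v.1 + 1) ∨ (q.1 = v.1 ∧ p.1 = v.1 + 1)) ∧ p.2 + q.2 ≤ 2 * v.2 then 1 else 0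

/-- Parity of the edges below `v`. -/
def g (v p : V) (l : List V) : ZMod 2 := sE (cr v) p l

theorem g_up (u v : V) (h1 : v.1 = u.1) (h2 : v.2 = u.2 + 1) (p : V) (l : List V)
    (hc : (p :: l).IsChain Adj) (hu : u ∉ p :: l) (hv : v ∉ p :: l) : g u p l = g v p l := by
  refine sE_congr _ _ (fun x => x ≠ v) ?_ l p hc (fun x hx h => hv (h ▸ hx))
  rintro ⟨p1, p2⟩ ⟨q1, q2⟩ ha hp hq
  obtain ⟨u1, u2⟩ := u
  obtain ⟨v1, v2⟩ := v
  simp only [Adj, cr, ne_eq, Prod.mk.injEq] at *
  by_cases hA : ((p1 = u1 ∧ q1 = u1 + 1) ∨ (q1 = u1 ∧ p1 = u1 + 1)) ∧ p2 + q2 ≤ 2 * u2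
  · rw [if_pos hA, if_pos (by omega)]
  · rw [if_neg hA, if_neg (by omega)]

theorem g_side (u v : V) (h1 : v.1 = u.1 + 1) (h2 : v.2 = u.2 ∨ v.2 = u.2 - 1) (R : ℕ)
    (hu0 : 0 ≤ u.1) (hvR : v.1 ≤ R) (p : V) (l : List V)
    (hc : (p :: l).IsChain Adj) (hu : u ∉ p :: l) (hv : v ∉ p :: l)
    (hp : p.1 = 0) (hq : (l.getLastD p).1 = R + 1) : g u p l = g v p l := by
  have key : sE (fun a b => cr u a b + cr v a b) p l =
      (if p.1 = v.1 ∧ p.2 < v.2 then (1 : ZMod 2) else 0) +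
      (if (l.getLastD p).1 = v.1 ∧ (l.getLastD p).2 < v.2 then (1 : ZMod 2) else 0) := by
    refine tel _ (fun x => if x.1 = v.1 ∧ x.2 < v.2 then (1 : ZMod 2) else 0)
      (fun x => x ≠ v ∧ x ≠ u) ?_ l p hc (fun x hx => ⟨fun h => hv (h ▸ hx), fun h => hu (h ▸ hx)⟩)
    rintro ⟨p1, p2⟩ ⟨q1, q2⟩ ha hp hq
    obtain ⟨u1, u2⟩ := u
    obtain ⟨v1, v2⟩ := v
    simp only [Adj, cr, ne_eq, Prod.mk.injEq] at *
    subst h1
    by_cases hA : ((p1 = u1 ∧ q1 = u1 + 1) ∨ (q1 = u1 ∧ p1 = u1 + 1)) ∧ p2 + q2 ≤ 2 * u2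
    · rw [if_pos hA, if_neg (by omega)]
      by_cases hB : p1 = u1 + 1 ∧ p2 < v2
      · rw [if_pos hB, if_neg (by omega)]
      · rw [if_neg hB, if_pos (by omega)]
        decide
    · rw [if_neg hA]
      by_cases hC : ((p1 = u1 + 1 ∧ q1 = u1 + 1 + 1) ∨ (q1 = u1 + 1 ∧ p1 = u1 + 1 + 1)) ∧
        p2 + q2 ≤ 2 * v2
      · rw [if_pos hC]
        by_cases hB : p1 = u1 + 1 ∧ p2 < v2
        · rw [if_pos hB, if_neg (by omega)]
          decide
        · rw [if_neg hB, if_pos (by omega)]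
      · rw [if_neg hC]
        by_cases hB : p1 = u1 + 1 ∧ p2 < v2
        · rw [if_pos hB, if_pos (by omega)]
          decide
        · rw [if_neg hB, if_neg (by omega)]
  rw [sE_add, if_neg (by omega), if_neg (by omega), add_zero] at key
  unfold g
  have := z2 (sE (cr v) p l)
  linear_combination key - this

theorem g_adj (R : ℕ) (u v : V) (h : Adj u v) (hu0 : 0 ≤ u.1) (huR : u.1 ≤ R) (hv0 : 0 ≤ v.1)
    (hvR : v.1 ≤ R) (p : V) (l : List V)
    (hc : (p :: l).IsChain Adj) (hu : u ∉ p :: l) (hv : v ∉ p :: l)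
    (hp : p.1 = 0) (hq : (l.getLastD p).1 = R + 1) : g u p l = g v p l := by
  rcases h with h | h | h | h | h | h
  · exact g_side u v h.1 (Or.inl h.2) R hu0 hvR p l hc hu hv hp hq
  · exact (g_side v u (by omega) (Or.inl (by omega)) R hv0 huR p l hc hv hu hp hq).symm
  · exact g_up u v h.1 h.2 p l hc hu hv
  · exact (g_up v u h.1.symm (by omega) p l hc hv hu).symm
  · exact g_side u v h.1 (Or.inr h.2) R hu0 hvR p l hc hu hv hp hq
  · exact (g_side v u (by omega) (Or.inr (by omega)) R hv0 huR p l hc hv hu hp hq).symm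

theorem g_const (R : ℕ) (p : V) (l : List V) (hc : (p :: l).IsChain Adj) (hp : p.1 = 0)
    (hq : (l.getLastD p).1 = R + 1) :
    ∀ (t : List V) (u : V), (u :: t).IsChain Adj → (∀ x ∈ u :: t, 0 ≤ x.1 ∧ x.1 ≤ R ∧ x ∉ p :: l) →
      g u p l = g (t.getLastD u) p l := by
  intro t
  induction t with
  | nil =>
    intro u _ _
    rfl
  | cons v t ih =>
    intro u hct hm
    obtain ⟨h1, h2⟩ := List.isChain_cons_cons.1 hct
    have hu := hm u (by simp)
    have hv := hm v (by simp)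
    have h5 : (v :: t).getLastD u = t.getLastD v := List.getLastD_cons
    rw [h5, ← ih v h2 (fun x hx => hm x (List.mem_cons_of_mem _ hx))]
    exact g_adj R u v h1 hu.1 hu.2.1 hv.1 hv.2.1 p l hc hu.2.2 hv.2.2 hp hq

theorem g_bot (u : V) (hu : u.2 = 0) (p : V) (l : List V) (hc : (p :: l).IsChain Adj)
    (h0 : ∀ x ∈ p :: l, 0 ≤ x.2) (hul : u ∉ p :: l) : g u p l = 0 := by
  have : g u p l = sE (fun _ _ => 0) p l := by
    refine sE_congr _ _ (fun x => x ≠ u ∧ 0 ≤ x.2) ?_ l p hc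
      (fun x hx => ⟨fun h => hul (h ▸ hx), h0 x hx⟩)
    rintro ⟨p1, p2⟩ ⟨q1, q2⟩ ha hp hq
    obtain ⟨u1, u2⟩ := u
    simp only [Adj, cr, ne_eq, Prod.mk.injEq] at *
    rw [if_neg (by omega)]
  rw [this]
  clear this hc h0 hul
  induction l generalizing p with
  | nil => rfl
  | cons q l ih =>
    rw [sE, ih q, add_zero]

theorem g_top (R : ℕ) (v : V) (hv : v.2 = R) (hv0 : 0 ≤ v.1) (hvR : v.1 ≤ R) (p : V) (l : List V)
    (hc : (p :: l).IsChain Adj) (h0 : ∀ x ∈ p :: l, x.2 ≤ R) (hp : p.1 = 0)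
    (hq : (l.getLastD p).1 = R + 1) : g v p l = 1 := by
  have key : g v p l = (if p.1 ≤ v.1 then (1 : ZMod 2) else 0) +
      (if (l.getLastD p).1 ≤ v.1 then (1 : ZMod 2) else 0) := by
    refine tel _ (fun x => if x.1 ≤ v.1 then (1 : ZMod 2) else 0)
      (fun x => x.2 ≤ R) ?_ l p hc h0
    rintro ⟨p1, p2⟩ ⟨q1, q2⟩ ha hp hq
    obtain ⟨v1, v2⟩ := v
    simp only [Adj, cr] at *
    by_cases hA : ((p1 = v1 ∧ q1 = v1 + 1) ∨ (q1 = v1 ∧ p1 = v1 + 1)) ∧ p2 + q2 ≤ 2 * v2
    · rw [if_pos hA]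
      by_cases hB : p1 ≤ v1
      · rw [if_pos hB, if_neg (by omega)]
        decide
      · rw [if_neg hB, if_pos (by omega)]
        decide
    · rw [if_neg hA]
      by_cases hB : p1 ≤ v1
      · rw [if_pos hB, if_pos (by omega)]
        decide
      · rw [if_neg hB, if_neg (by omega)]
        decide
  rw [key, if_pos (by omega), if_neg (by omega), add_zero]

theorem meet (R : ℕ) (p : V) (l : List V) (hc : (p :: l).IsChain Adj) (hp : p.1 = 0)
    (hq : (l.getLastD p).1 = R) (hb : ∀ x ∈ p :: l, x ∈ box R)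
    (u : V) (t : List V) (hct : (u :: t).IsChain Adj) (hu : u.2 = 0) (ht : (t.getLastD u).2 = R)
    (hbt : ∀ x ∈ u :: t, x ∈ box R) : ∃ x, x ∈ p :: l ∧ x ∈ u :: t := by
  by_contra hcon
  push Not at hcon
  have hbox : ∀ x ∈ box R, 0 ≤ x.1 ∧ x.1 ≤ R ∧ 0 ≤ x.2 ∧ x.2 ≤ R := by
    intro x hx
    simp only [box, mem_product, mem_Icc] at hx
    omega
  set e : V := ((R : ℤ) + 1, (l.getLastD p).2) with he
  have hlast : (p :: l).getLast (by simp) = l.getLastD p := by
    cases l with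
    | nil => rfl
    | cons a l => simp [List.getLastD]
  have hc' : (p :: (l ++ [e])).IsChain Adj := by
    rw [← List.cons_append, List.isChain_append]
    refine ⟨hc, by simp, ?_⟩
    intro x hx y hy
    rw [List.getLast?_eq_getLast_of_ne_nil (by simp), hlast] at hx
    simp only [List.head?_cons, Option.mem_def, Option.some.injEq] at hx hy
    rw [← hx, ← hy, he]
    left
    exact ⟨by rw [hq], rfl⟩
  have hq' : ((l ++ [e]).getLastD p).1 = R + 1 := by
    simp [he]
  have hmem : ∀ x ∈ p :: (l ++ [e]), x ∈ p :: l ∨ x = e := by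
    intro x hx
    simp only [List.mem_cons, List.mem_append, List.not_mem_nil, or_false] at hx ⊢
    tauto
  have hlin : l.getLastD p ∈ p :: l := by
    rw [← hlast]
    exact List.getLast_mem _
  have hy : ∀ x ∈ p :: (l ++ [e]), 0 ≤ x.2 ∧ x.2 ≤ R := by
    intro x hx
    rcases hmem x hx with h | h
    · have := hbox x (hb x h)
      omega
    · rw [h]
      have := hbox _ (hb _ hlin)
      exact ⟨this.2.2.1, this.2.2.2⟩
  have hnot : ∀ x ∈ u :: t, x ∉ p :: (l ++ [e]) := by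
    intro x hx hx'
    rcases hmem x hx' with h | h
    · exact hcon x h hx
    · have := hbox x (hbt x hx)
      rw [h] at this
      simp only [he] at this
      omega
  have h1 := g_const R p (l ++ [e]) hc' hp hq' t u hct
    (fun x hx => ⟨(hbox x (hbt x hx)).1, (hbox x (hbt x hx)).2.1, hnot x hx⟩)
  have h2 := g_bot u hu p (l ++ [e]) hc' (fun x hx => (hy x hx).1) (hnot u (by simp))
  have htm : t.getLastD u ∈ u :: t := by
    cases t with
    | nil => simp
    | cons a t =>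
      have : (a :: t).getLastD u = (a :: t).getLast (by simp) := by simp [List.getLastD]
      rw [this]
      exact List.mem_cons_of_mem _ (List.getLast_mem _)
  have h3 := g_top R (t.getLastD u) ht (hbox _ (hbt _ htm)).1 (hbox _ (hbt _ htm)).2.1 p (l ++ [e])
    hc' (fun x hx => (hy x hx).2) hp hq'
  rw [h2, h3] at h1
  exact absurd h1 (by decide)

end Pool.Agent.Helper64.SC
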