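import Pool.Agent.Helper64.SC.Count

/-!
Expectations: the shortest crossing, the spanning clusters, the unique spanning cluster.
-/

set_option autoImplicit false

open Finset Filter Topology

open scoped Classical

namespace Pool.Agent.Helper64.SC

/-- `E[L_R^k | H_R]`. -/
noncomputable def mom (k R : ℕ) : ℝ := CEx R (fun ω => (L R ω : ℝ) ^ k) (H R)

/-- The largest of the numbers `L R C`, `C` a spanning cluster. -/
noncomputable def Lmax (R : ℕ) (ω : Finset V) : ℕ := (Span R ω).sup (L R)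

/-- `E[(max over the spanning clusters of L(C))^k | H_R]`. -/
noncomputable def momMax (k R : ℕ) : ℝ := CEx R (fun ω => (Lmax R ω : ℝ) ^ k) (H R)

/-- `E[sum over the spanning clusters of L(C)^k | H_R]`. -/
noncomputable def momSum (k R : ℕ) : ℝ := CEx R (fun ω => ∑ C ∈ Span R ω, (L R C : ℝ) ^ k) (H R)

/-- `E[L(σ(ω))^k | H_R]` for a spanning cluster `σ R ω` selected by some rule. -/
noncomputable def momSel (σ : ℕ → Finset V → Finset V) (k R : ℕ) : ℝ :=
  CEx R (fun ω => (L R (σ R ω) : ℝ) ^ k) (H R)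

/-- `E[L_R^k | there is exactly one spanning cluster]`. -/
noncomputable def momOne (k R : ℕ) : ℝ := CEx R (fun ω => (L R ω : ℝ) ^ k) (One R)

/-- `σ` selects a spanning cluster, if there is one. -/
def Selects (σ : ℕ → Finset V → Finset V) : Prop :=
  ∀ (R : ℕ) (ω : Finset V), ω ⊆ box R → H R ω → σ R ω ∈ Span R ω

theorem L_le {R : ℕ} {S : Finset V} {l : List V} (h : IsCrossing R S l) : L R S ≤ l.length :=
  Nat.sInf_le ⟨l, h, rfl⟩

theorem L_att {R : ℕ} {S : Finset V} (h : H R S) : ∃ l, IsCrossing R S l ∧ l.length = L R S := by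
  obtain ⟨l, hl⟩ := h
  exact Nat.sInf_mem (s := {n | ∃ l, IsCrossing R S l ∧ l.length = n}) ⟨l.length, l, hl, rfl⟩

theorem L_pos {R : ℕ} {S : Finset V} (h : H R S) : 1 ≤ L R S := by
  obtain ⟨l, ⟨-, -, ⟨p, hp, -⟩, -⟩, hl⟩ := L_att h
  rw [← hl]
  cases l with
  | nil => simp at hp
  | cons a l => simp

theorem L_span {R : ℕ} {S C : Finset V} (h : C ∈ Span R S) : L R S ≤ L R C := by
  obtain ⟨l, ⟨h1, h2, h3, h4⟩, hl⟩ := L_att (mem_Span.1 h).2
  rw [← hl]
  exact L_le ⟨h1, fun v hv => (mem_Span.1 h).1.2.1 (h2 v hv), h3, h4⟩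

theorem L_one {R : ℕ} {S : Finset V} (h : One R S) : ∃ C, Span R S = {C} ∧ L R C = L R S := by
  obtain ⟨C, hC⟩ := card_eq_one.1 h
  refine ⟨C, hC, le_antisymm ?_ (L_span (by rw [hC]; exact mem_singleton_self C))⟩
  obtain ⟨l, hl, hlen⟩ := L_att h.H
  obtain ⟨D, hD, hlD⟩ := crossing_span R S l hl
  rw [hC, mem_singleton] at hD
  rw [← hlen, ← hD]
  exact L_le hlD

/-! ### Expectations -/

theorem Ex_mono {R : ℕ} {f g : Finset V → ℝ} (h : ∀ ω, ω ⊆ box R → f ω ≤ g ω) : Ex R f ≤ Ex R g := by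
  unfold Ex
  refine div_le_div_of_nonneg_right (sum_le_sum fun ω hω => h ω (mem_powerset.1 hω)) (by positivity)

theorem Ex_nonneg {R : ℕ} {f : Finset V → ℝ} (h : ∀ ω, ω ⊆ box R → 0 ≤ f ω) : 0 ≤ Ex R f := by
  unfold Ex
  exact div_nonneg (sum_nonneg fun ω hω => h ω (mem_powerset.1 hω)) (by positivity)

theorem Ex_main (R : ℕ) (F : Finset V → ℝ) (hF : ∀ C, 0 ≤ F C) :
    Ex R (fun ω => ∑ C ∈ Span R ω, F C) ≤
      2 * Ex R (fun ω => if One R ω then ∑ C ∈ Span R ω, F C else 0) := by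
  unfold Ex
  rw [← mul_div_assoc]
  exact div_le_div_of_nonneg_right (main_sum R F hF) (by positivity)

theorem row (n : ℕ) : ∃ l : List V, l.IsChain Adj ∧ (∀ v ∈ l, 0 ≤ v.1 ∧ v.1 ≤ n ∧ v.2 = 0) ∧
    l.head? = some (0, 0) ∧ l.getLast? = some ((n : ℤ), 0) := by
  induction n with
  | zero => exact ⟨[(0, 0)], by simp, by simp, rfl, rfl⟩
  | succ n ih =>
    obtain ⟨l, h1, h2, h3, h4⟩ := ih
    refine ⟨l ++ [((n : ℤ) + 1, 0)], ?_, ?_, ?_, ?_⟩
    · rw [List.isChain_append]
      refine ⟨h1, by simp, ?_⟩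
      intro x hx y hy
      rw [h4] at hx
      simp only [Option.mem_def, Option.some.injEq, List.head?_cons] at hx hy
      subst hx hy
      left
      simp
    · intro v hv
      rcases List.mem_append.1 hv with h | h
      · have := h2 v h
        push_cast
        omega
      · rw [List.mem_singleton] at h
        subst h
        change 0 ≤ (n : ℤ) + 1 ∧ (n : ℤ) + 1 ≤ ((n + 1 : ℕ) : ℤ) ∧ (0 : ℤ) = 0
        push_cast
        exact ⟨by positivity, le_rfl, trivial⟩
    · cases l with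
      | nil => simp at h3
      | cons a l => simpa using h3
    · simp

theorem H_box (R : ℕ) : H R (box R) := by
  obtain ⟨l, h1, h2, h3, h4⟩ := row R
  refine ⟨l, h1, ?_, ⟨_, h3, rfl⟩, ⟨_, h4, rfl⟩⟩
  intro v hv
  have := h2 v hv
  simp only [box, mem_product, mem_Icc]
  omega

theorem PrH_pos (R : ℕ) : 0 < Pr R (H R) := by
  unfold Pr Ex
  refine div_pos ?_ (by positivity)
  have h1 : (0 : ℝ) < if H R (box R) then 1 else 0 := by
    rw [if_pos (H_box R)]
    exact one_pos
  refine lt_of_lt_of_le h1 ?_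
  exact single_le_sum (f := fun ω => if H R ω then (1 : ℝ) else 0)
    (fun ω _ => by positivity) (mem_powerset.2 (Subset.refl (box R)))

theorem Pr_one_le (R : ℕ) : Pr R (One R) ≤ Pr R (H R) := by
  unfold Pr
  refine Ex_mono fun ω _ => ?_
  by_cases h : One R ω
  · rw [if_pos h, if_pos h.H]
  · rw [if_neg h]
    positivity

theorem Pr_le_one (R : ℕ) : Pr R (H R) ≤ 2 * Pr R (One R) := by
  have h1 := Ex_main R (fun _ => 1) (fun _ => zero_le_one)
  refine le_trans ?_ (h1.trans (le_of_eq ?_))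
  · unfold Pr
    refine Ex_mono fun ω _ => ?_
    by_cases h : H R ω
    · rw [if_pos h, sum_const, nsmul_eq_mul, mul_one]
      exact_mod_cast card_pos.2 (Span_nonempty.2 h)
    · rw [if_neg h]
      positivity
  · congr 1
    unfold Pr
    congr 1
    funext ω
    by_cases h : One R ω
    · rw [if_pos h, if_pos h, sum_const, nsmul_eq_mul, mul_one]
      unfold One at h
      rw [h]
      norm_num
    · rw [if_neg h, if_neg h]

theorem PrOne_pos (R : ℕ) : 0 < Pr R (One R) := by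
  have := PrH_pos R
  have := Pr_le_one R
  linarith

/-- `E[L^k; H]` -/
theorem A_le (k R : ℕ) : Ex R (fun ω => if One R ω then (L R ω : ℝ) ^ k else 0) ≤
    Ex R (fun ω => if H R ω then (L R ω : ℝ) ^ k else 0) := by
  refine Ex_mono fun ω _ => ?_
  by_cases h : One R ω
  · rw [if_pos h, if_pos h.H]
  · rw [if_neg h]
    positivity

theorem sum_le_one (k R : ℕ) :
    Ex R (fun ω => if H R ω then ∑ C ∈ Span R ω, (L R C : ℝ) ^ k else 0) ≤
      2 * Ex R (fun ω => if One R ω then (L R ω : ℝ) ^ k else 0) := by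
  have h1 := Ex_main R (fun C => (L R C : ℝ) ^ k) (fun C => by positivity)
  refine le_trans (Ex_mono fun ω _ => ?_) (h1.trans (le_of_eq ?_))
  · by_cases h : H R ω
    · rw [if_pos h]
    · rw [if_neg h]
      positivity
  · congr 2
    funext ω
    by_cases h : One R ω
    · obtain ⟨C, hC, hL⟩ := L_one h
      rw [if_pos h, if_pos h, hC, sum_singleton, hL]
    · rw [if_neg h, if_neg h]

theorem CEx_mono {R : ℕ} {A : Finset V → Prop} {f g : Finset V → ℝ}
    (h : ∀ ω, ω ⊆ box R → A ω → f ω ≤ g ω) : CEx R f A ≤ CEx R g A := by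
  unfold CEx
  refine div_le_div_of_nonneg_right (Ex_mono fun ω hω => ?_) ?_
  · by_cases hA : A ω
    · rw [if_pos hA, if_pos hA]
      exact h ω hω hA
    · rw [if_neg hA, if_neg hA]
  · unfold Pr
    exact Ex_nonneg fun ω _ => by positivity

theorem mom_le_sel (σ : ℕ → Finset V → Finset V) (hσ : Selects σ) (k R : ℕ) :
    mom k R ≤ momSel σ k R :=
  CEx_mono fun ω hω hH => pow_le_pow_left₀ (by positivity)
    (by exact_mod_cast L_span (hσ R ω hω hH)) k

theorem sel_le_max (σ : ℕ → Finset V → Finset V) (hσ : Selects σ) (k R : ℕ) :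
    momSel σ k R ≤ momMax k R :=
  CEx_mono fun ω hω hH => pow_le_pow_left₀ (by positivity)
    (by exact_mod_cast le_sup (f := L R) (hσ R ω hω hH)) k

theorem mom_le_max (k R : ℕ) : mom k R ≤ momMax k R := by
  refine CEx_mono fun ω hω hH => pow_le_pow_left₀ (by positivity) ?_ k
  obtain ⟨C, hC⟩ := Span_nonempty.2 hH
  have : L R ω ≤ Lmax R ω := (L_span hC).trans (le_sup (f := L R) hC)
  exact_mod_cast this

theorem max_le_sum (k R : ℕ) : momMax k R ≤ momSum k R := by
  refine CEx_mono fun ω hω hH => ?_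
  obtain ⟨C, hC, hCe⟩ := exists_mem_eq_sup (Span R ω) (Span_nonempty.2 hH) (L R)
  unfold Lmax
  rw [hCe]
  exact single_le_sum (f := fun C => (L R C : ℝ) ^ k) (fun C _ => by positivity) hC

theorem sum_le_mom (k R : ℕ) : momSum k R ≤ 2 * mom k R := by
  unfold momSum mom CEx
  rw [← mul_div_assoc]
  refine div_le_div_of_nonneg_right ?_ (PrH_pos R).le
  refine (sum_le_one k R).trans ?_
  have := A_le k R
  linarith

theorem one_le_mom (k R : ℕ) : momOne k R ≤ 2 * mom k R := by
  unfold momOne mom CEx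
  rw [← mul_div_assoc, div_le_div_iff₀ (PrOne_pos R) (PrH_pos R)]
  have h1 := A_le k R
  have h2 := Pr_le_one R
  have h3 := PrOne_pos R
  have h4 := PrH_pos R
  have h5 : 0 ≤ Ex R (fun ω => if H R ω then (L R ω : ℝ) ^ k else 0) :=
    Ex_nonneg fun ω _ => by positivity
  have h6 : 0 ≤ Ex R (fun ω => if One R ω then (L R ω : ℝ) ^ k else 0) :=
    Ex_nonneg fun ω _ => by positivity
  calc Ex R (fun ω => if One R ω then (L R ω : ℝ) ^ k else 0) * Pr R (H R)
      ≤ Ex R (fun ω => if H R ω then (L R ω : ℝ) ^ k else 0) * (2 * Pr R (One R)) :=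
        mul_le_mul h1 h2 h4.le h5
    _ = 2 * Ex R (fun ω => if H R ω then (L R ω : ℝ) ^ k else 0) * Pr R (One R) := by ring

theorem mom_le_one (k R : ℕ) : mom k R ≤ 2 * momOne k R := by
  unfold momOne mom CEx
  rw [← mul_div_assoc, div_le_div_iff₀ (PrH_pos R) (PrOne_pos R)]
  have h1 : Ex R (fun ω => if H R ω then (L R ω : ℝ) ^ k else 0) ≤
      2 * Ex R (fun ω => if One R ω then (L R ω : ℝ) ^ k else 0) := by
    refine le_trans (Ex_mono fun ω _ => ?_) (sum_le_one k R)
    by_cases h : H R ω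
    · rw [if_pos h, if_pos h]
      obtain ⟨C, hC⟩ := Span_nonempty.2 h
      refine le_trans (pow_le_pow_left₀ (by positivity) ?_ k)
        (single_le_sum (f := fun C => (L R C : ℝ) ^ k) (fun C _ => by positivity) hC)
      exact_mod_cast L_span hC
    · rw [if_neg h, if_neg h]
  have h2 := Pr_one_le R
  have h3 := PrOne_pos R
  have h6 : 0 ≤ Ex R (fun ω => if One R ω then (L R ω : ℝ) ^ k else 0) :=
    Ex_nonneg fun ω _ => by positivity
  exact mul_le_mul h1 h2 h3.le (by linarith)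

theorem mom_ge_one (k R : ℕ) : 1 ≤ mom k R := by
  unfold mom CEx
  rw [le_div_iff₀ (PrH_pos R), one_mul]
  unfold Pr
  refine Ex_mono fun ω _ => ?_
  by_cases h : H R ω
  · rw [if_pos h, if_pos h]
    exact one_le_pow₀ (by exact_mod_cast L_pos h)
  · rw [if_neg h, if_neg h]

/-- Tails. -/
theorem tail (R ℓ : ℕ) : Pr R (fun ω => ∃ C ∈ Span R ω, ℓ < L R C) ≤
    2 * Pr R (fun ω => One R ω ∧ ℓ < L R ω) := by
  have h1 := Ex_main R (fun C => if ℓ < L R C then 1 else 0) (fun C => by positivity)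
  refine le_trans ?_ (h1.trans ?_)
  · unfold Pr
    refine Ex_mono fun ω _ => ?_
    by_cases h : ∃ C ∈ Span R ω, ℓ < L R C
    · rw [if_pos h]
      obtain ⟨C, hC, hL⟩ := h
      have h2 : (1 : ℝ) = if ℓ < L R C then 1 else 0 := by rw [if_pos hL]
      refine h2.le.trans ?_
      exact single_le_sum (f := fun C => if ℓ < L R C then (1 : ℝ) else 0)
        (fun C _ => by positivity) hC
    · rw [if_neg h]
      positivity
  · refine mul_le_mul_of_nonneg_left ?_ (by norm_num)
    unfold Pr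
    refine Ex_mono fun ω _ => ?_
    by_cases h : One R ω
    · obtain ⟨C, hC, hL⟩ := L_one h
      rw [if_pos h, hC, sum_singleton, hL]
      by_cases h2 : ℓ < L R ω
      · rw [if_pos h2, if_pos ⟨h, h2⟩]
      · rw [if_neg h2, if_neg (fun h3 => h2 h3.2)]
    · rw [if_neg h]
      positivity

theorem exp_iff (u v : ℕ → ℝ) (hu : ∀ R, 0 < u R) (hv : ∀ R, 0 < v R) (h1 : ∀ R, u R ≤ 2 * v R)
    (h2 : ∀ R, v R ≤ 2 * u R) (α : ℝ)
    (h : Tendsto (fun R : ℕ => Real.log (u R) / Real.log R) atTop (𝓝 α)) :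
    Tendsto (fun R : ℕ => Real.log (v R) / Real.log R) atTop (𝓝 α) := by
  have hlog : Tendsto (fun R : ℕ => Real.log R) atTop atTop :=
    Real.tendsto_log_atTop.comp tendsto_natCast_atTop_atTop
  have h3 : Tendsto (fun R : ℕ => Real.log 2 / Real.log R) atTop (𝓝 0) :=
    hlog.const_div_atTop _
  have h4 : Tendsto (fun R : ℕ => Real.log (v R) / Real.log R - Real.log (u R) / Real.log R) atTop
      (𝓝 0) := by
    refine squeeze_zero_norm' ?_ h3
    filter_upwards [hlog.eventually_ge_atTop 1] with R hR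
    rw [← sub_div, Real.norm_eq_abs, abs_div, abs_of_nonneg (by linarith : 0 ≤ Real.log (R : ℝ))]
    refine div_le_div_of_nonneg_right ?_ (by linarith)
    have e1 : Real.log (v R) ≤ Real.log 2 + Real.log (u R) := by
      rw [← Real.log_mul (by norm_num) (hu R).ne']
      exact Real.log_le_log (hv R) (h2 R)
    have e2 : Real.log (u R) ≤ Real.log 2 + Real.log (v R) := by
      rw [← Real.log_mul (by norm_num) (hv R).ne']
      exact Real.log_le_log (hu R) (h1 R)
    rw [abs_le]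
    constructor <;> linarith
  have h5 := h.add h4
  simpa using h5

theorem exps (k : ℕ) (α : ℝ) (σ : ℕ → Finset V → Finset V) (hσ : Selects σ) :
    (Tendsto (fun R : ℕ => Real.log (mom k R) / Real.log R) atTop (𝓝 α) ↔
      Tendsto (fun R : ℕ => Real.log (momMax k R) / Real.log R) atTop (𝓝 α)) ∧
    (Tendsto (fun R : ℕ => Real.log (mom k R) / Real.log R) atTop (𝓝 α) ↔
      Tendsto (fun R : ℕ => Real.log (momSum k R) / Real.log R) atTop (𝓝 α)) ∧
    (Tendsto (fun R : ℕ => Real.log (mom k R) / Real.log R) atTop (𝓝 α) ↔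
      Tendsto (fun R : ℕ => Real.log (momSel σ k R) / Real.log R) atTop (𝓝 α)) ∧
    (Tendsto (fun R : ℕ => Real.log (mom k R) / Real.log R) atTop (𝓝 α) ↔
      Tendsto (fun R : ℕ => Real.log (momOne k R) / Real.log R) atTop (𝓝 α)) := by
  have m1 := mom_ge_one k
  have m2 := mom_le_max k
  have m3 := max_le_sum k
  have m4 := sum_le_mom k
  have m5 := mom_le_sel σ hσ k
  have m6 := sel_le_max σ hσ k
  have m7 := one_le_mom k
  have m8 := mom_le_one k
  have key : ∀ v : ℕ → ℝ, (∀ R, mom k R ≤ 2 * v R) → (∀ R, v R ≤ 2 * mom k R) →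
      (Tendsto (fun R : ℕ => Real.log (mom k R) / Real.log R) atTop (𝓝 α) ↔
      Tendsto (fun R : ℕ => Real.log (v R) / Real.log R) atTop (𝓝 α)) := by
    intro v h1 h2
    have hu : ∀ R, 0 < mom k R := fun R => by linarith [m1 R]
    have hv : ∀ R, 0 < v R := fun R => by linarith [m1 R, h1 R]
    exact ⟨exp_iff _ _ hu hv h1 h2 α, exp_iff _ _ hv hu h2 h1 α⟩
  refine ⟨key _ (fun R => ?_) (fun R => ?_), key _ (fun R => ?_) (fun R => ?_),
    key _ (fun R => ?_) (fun R => ?_), key _ m8 m7⟩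
  · linarith [m1 R, m2 R]
  · linarith [m3 R, m4 R]
  · linarith [m1 R, m2 R, m3 R]
  · exact m4 R
  · linarith [m1 R, m5 R]
  · linarith [m6 R, m3 R, m4 R]

end Pool.Agent.Helper64.SC
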